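import Mathlib
import Pool.Agent.V35.WM

/-! Countably many thin sets of integer vectors at once: boxes around `α v_k` and neighbourhoods of rays which contain none,
or only finitely many, of their elements, for all `α` outside one set of small Hausdorff dimension. -/

set_option autoImplicit false

namespace Pool.Agent.Helper203.Win.Fam

open MvPolynomial NumberField IsDedekindDomain

/-- the exponent of convergence of the sequence `v` is at most `τ` -/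
def ExpLe (v : ℕ → ℝ) (τ : ℝ) : Prop := ∀ t : ℝ, τ < t → Summable fun n : ℕ => (v n) ^ (-t)

/-- for large `k` no integer vector in the box with centre `α v_k` and side `2 v_k ^ θ` has the property `P` -/
def NoneInBoxes {ι : Type} (P : (ι → ℤ) → Prop) (v : ℕ → ℝ) (θ : ℝ) (α : ι → ℝ) : Prop :=
  ∃ k0 : ℕ, ∀ k : ℕ, k0 ≤ k → ∀ c : ι → ℤ, (∀ j, |(c j : ℝ) - α j * v k| ≤ (v k) ^ θ) → ¬ P c

/-- only finitely many integer vectors with the property `P` lie in the neighbourhood of the ray through `α` of radius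
`r ^ θ` at the point `r α` -/
def FewNearRay {ι : Type} (P : (ι → ℤ) → Prop) (θ : ℝ) (α : ι → ℝ) : Prop :=
  {c : ι → ℤ | P c ∧ ∃ r : ℝ, 0 < r ∧ ∀ j, |(c j : ℝ) - r * α j| ≤ r ^ θ}.Finite

/-! ### Countability -/

theorem cMv (σ R : Type) [Countable σ] [CommRing R] [Countable R] : Countable (MvPolynomial σ R) := by
  rw [← Cardinal.mk_le_aleph0_iff]
  refine (MvPolynomial.cardinalMk_le_max (σ := σ) (R := R)).trans ?_
  exact max_le (max_le (Cardinal.mk_le_aleph0) (Cardinal.mk_le_aleph0)) le_rfl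

theorem cO (K : Type) [Field K] [NumberField K] : Countable (𝓞 K) :=
  (NumberField.RingOfIntegers.basis K).equivFun.injective.countable

theorem cP (K : Type) [Field K] [NumberField K] : Countable (HeightOneSpectrum (𝓞 K)) := by
  have := cO K
  have h : Function.Surjective (fun s : Finset (𝓞 K) => Ideal.span (s : Set (𝓞 K))) := by
    intro I
    exact (isNoetherianRing_iff_ideal_fg _).1 inferInstance I
  have := h.countable
  exact Function.Injective.countable (f := fun v : HeightOneSpectrum (𝓞 K) => v.asIdeal)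
    (fun v w h => HeightOneSpectrum.ext h)

/-! ### Counting and dimension -/

/-- the number of the vectors of size at most `H` with the property `P` is `O(H ^ (s + ε))` -/
def CountLe {ι : Type} (P : (ι → ℤ) → Prop) (s : ℝ) : Prop :=
  ∀ ε : ℝ, 0 < ε → ∃ C : ℝ, ∃ H₀ : ℕ, ∀ H : ℕ, H₀ ≤ H →
    (({c : ι → ℤ | (∀ i, |c i| ≤ H) ∧ P c}.ncard : ℕ) : ℝ) ≤ C * (H : ℝ) ^ (s + ε)

theorem box_finite {ι : Type} [Fintype ι] (P : (ι → ℤ) → Prop) (H : ℕ) :
    {c : ι → ℤ | (∀ i, |c i| ≤ (H : ℤ)) ∧ P c}.Finite := by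
  classical
  refine Set.Finite.subset (Fintype.piFinset fun _ : ι => Finset.Icc (-(H : ℤ)) H).finite_toSet ?_
  intro c hc
  rw [Finset.mem_coe, Fintype.mem_piFinset]
  intro s
  rw [Finset.mem_Icc]
  exact abs_le.1 (hc.1 s)

theorem thin_of {ι : Type} [Fintype ι] {P : (ι → ℤ) → Prop} {s : ℝ} (hs : 0 ≤ s) (h : CountLe P s) :
    Pool.Agent.V35.WM.Thin (V := ι → ℝ) {c : ι → ℤ | P c} (fun c i => (c i : ℝ)) s := by
  intro ε hε
  obtain ⟨C, H₀, hC⟩ := h ε hε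
  refine ⟨|C| * ((H₀ : ℝ) + 1) ^ (s + ε), fun X hX => ?_⟩
  set H : ℕ := max ⌊X⌋₊ H₀ with hH
  have hsub : {t : ι → ℤ | t ∈ {c : ι → ℤ | P c} ∧ ‖(fun i => (t i : ℝ) : ι → ℝ)‖ ≤ X} ⊆
      {c : ι → ℤ | (∀ i, |c i| ≤ (H : ℤ)) ∧ P c} := by
    rintro t ⟨ht, hn⟩
    refine ⟨fun i => ?_, ht⟩
    have h1 : ‖((t i : ℤ) : ℝ)‖ ≤ X := (norm_le_pi_norm (fun i => (t i : ℝ)) i).trans hn
    rw [Real.norm_eq_abs, ← Int.cast_abs] at h1
    have h2 : (((t i).natAbs : ℕ) : ℝ) ≤ X := by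
      rw [Nat.cast_natAbs]
      exact h1
    have h3 : (t i).natAbs ≤ ⌊X⌋₊ := Nat.le_floor h2
    have h4 : (t i).natAbs ≤ H := h3.trans (le_max_left _ _)
    rw [← Int.natCast_natAbs]
    exact_mod_cast h4
  have hfin := box_finite P H
  refine ⟨hfin.subset hsub, ?_⟩
  have h1 := hC H (le_max_right _ _)
  have h2 : (({t : ι → ℤ | t ∈ {c : ι → ℤ | P c} ∧ ‖(fun i => (t i : ℝ) : ι → ℝ)‖ ≤ X}.ncard : ℕ) : ℝ) ≤
      (({c : ι → ℤ | (∀ i, |c i| ≤ (H : ℤ)) ∧ P c}.ncard : ℕ) : ℝ) := by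
    exact_mod_cast Set.ncard_le_ncard hsub hfin
  have h3 : (H : ℝ) ≤ ((H₀ : ℝ) + 1) * X := by
    rw [hH]
    push_cast
    refine max_le ?_ ?_
    · have : ((⌊X⌋₊ : ℕ) : ℝ) ≤ X := Nat.floor_le (by linarith)
      have h0 : (0 : ℝ) ≤ H₀ := Nat.cast_nonneg _
      nlinarith
    · have h0 : (0 : ℝ) ≤ H₀ := Nat.cast_nonneg _
      nlinarith
  calc _ ≤ _ := h2
    _ ≤ C * (H : ℝ) ^ (s + ε) := h1
    _ ≤ |C| * (((H₀ : ℝ) + 1) * X) ^ (s + ε) := by
        refine mul_le_mul (le_abs_self C) ?_ (by positivity) (abs_nonneg _)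
        exact Real.rpow_le_rpow (Nat.cast_nonneg _) h3 (by linarith)
    _ = _ := by
        rw [Real.mul_rpow (by positivity) (by linarith)]
        ring

theorem windows {J ι : Type} [Countable J] [Fintype ι] (P : J → (ι → ℤ) → Prop) {s : ℝ} (hs : 0 ≤ s)
    {v : ℕ → ℝ} {τ θ : ℝ} (hpos : ∀ n, 1 ≤ v n) (hτ : 0 ≤ τ) (hv : ExpLe v τ) (hθ : θ < 1) :
    ∃ X : Set (ι → ℝ), dimH X ≤ ENNReal.ofReal ((s + τ) / (1 - θ)) ∧
      ∀ α : ι → ℝ, α ∉ X → ∀ j, CountLe (P j) s → NoneInBoxes (P j) v θ α := by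
  classical
  refine ⟨⋃ j : J, if CountLe (P j) s then
    Pool.Agent.V35.WM.BadWin (V := ι → ℝ) {c : ι → ℤ | P j c} (fun c i => (c i : ℝ)) v θ else ∅, ?_, ?_⟩
  · rw [dimH_iUnion]
    refine iSup_le fun j => ?_
    split_ifs with h
    · exact Pool.Agent.V35.WM.dim_badWin hpos hτ hv hs hθ (thin_of hs h)
    · rw [dimH_empty]
      exact bot_le
  · intro α hα j hj
    have h1 : α ∉ Pool.Agent.V35.WM.BadWin (V := ι → ℝ) {c : ι → ℤ | P j c} (fun c i => (c i : ℝ)) v θ := by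
      intro h
      refine hα (Set.mem_iUnion.2 ⟨j, ?_⟩)
      rw [if_pos hj]
      exact h
    unfold Pool.Agent.V35.WM.BadWin at h1
    rw [Set.mem_ofPred_eq] at h1
    push Not at h1
    obtain ⟨k0, hk0⟩ := h1
    refine ⟨k0, fun k hk c hc hPc => ?_⟩
    have h2 := hk0 k hk c hPc
    refine absurd ?_ (not_le.2 h2)
    have h3 : 0 ≤ (v k) ^ θ := Real.rpow_nonneg (by linarith [hpos k]) _
    refine (pi_norm_le_iff_of_nonneg h3).2 fun i => ?_
    have h4 := hc i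
    rw [Real.norm_eq_abs]
    simpa [mul_comm] using h4

theorem rays {J ι : Type} [Countable J] [Fintype ι] (P : J → (ι → ℤ) → Prop) {s : ℝ} (hs : 0 ≤ s)
    {θ : ℝ} (hθ0 : 0 ≤ θ) (hθ : θ < 1) :
    ∃ X : Set (ι → ℝ), dimH X ≤ ENNReal.ofReal (1 + s / (1 - θ)) ∧
      ∀ α : ι → ℝ, α ∉ X → ∀ j, CountLe (P j) s → FewNearRay (P j) θ α := by
  classical
  refine ⟨⋃ j : J, if CountLe (P j) s then
    Pool.Agent.V35.WM.BadRay (V := ι → ℝ) {c : ι → ℤ | P j c} (fun c i => (c i : ℝ)) θ else ∅, ?_, ?_⟩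
  · rw [dimH_iUnion]
    refine iSup_le fun j => ?_
    split_ifs with h
    · exact Pool.Agent.V35.WM.dim_badRay hs hθ0 hθ (thin_of hs h)
    · rw [dimH_empty]
      exact bot_le
  · intro α hα j hj
    have h1 : α ∉ Pool.Agent.V35.WM.BadRay (V := ι → ℝ) {c : ι → ℤ | P j c} (fun c i => (c i : ℝ)) θ := by
      intro h
      refine hα (Set.mem_iUnion.2 ⟨j, ?_⟩)
      rw [if_pos hj]
      exact h
    unfold Pool.Agent.V35.WM.BadRay at h1
    rw [Set.mem_ofPred_eq, Set.not_infinite] at h1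
    refine h1.subset ?_
    rintro c ⟨hc, r, hr, h2⟩
    refine ⟨hc, r, hr, ?_⟩
    have h3 : 0 ≤ r ^ θ := Real.rpow_nonneg hr.le _
    refine (pi_norm_le_iff_of_nonneg h3).2 fun i => ?_
    rw [Real.norm_eq_abs]
    simpa using h2 i

lemma pow_le_lin {τ : ℝ} (h0 : 0 ≤ τ) (hτ : τ < 1) {ε : ℝ} (hε : 0 < ε) :
    ∃ C : ℝ, ∀ x : ℝ, 0 < x → x ^ τ ≤ ε * x + C := by
  have h1τ : 0 < 1 - τ := by linarith
  have hb : 0 < ε ^ (-(1 / (1 - τ))) := Real.rpow_pos_of_pos hε _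
  refine ⟨(ε ^ (-(1 / (1 - τ)))) ^ τ, fun x hx => ?_⟩
  rcases le_or_gt x (ε ^ (-(1 / (1 - τ)))) with h | h
  · have := Real.rpow_le_rpow hx.le h h0
    nlinarith
  · have h2 : x ^ (τ - 1) ≤ ε := by
      have h3 := Real.rpow_le_rpow_of_nonpos hb h.le (by linarith : τ - 1 ≤ 0)
      rw [← Real.rpow_mul hε.le] at h3
      have h4 : -(1 / (1 - τ)) * (τ - 1) = 1 := by
        field_simp
        ring
      rwa [h4, Real.rpow_one] at h3
    have h5 : x ^ τ = x ^ (τ - 1) * x := by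
      rw [Real.rpow_sub_one hx.ne']
      field_simp
    rw [h5]
    have h6 : 0 ≤ (ε ^ (-(1 / (1 - τ)))) ^ τ := by positivity
    nlinarith

lemma exp_le {τ : ℝ} (h0 : 0 ≤ τ) (hτ : τ < 1) {ε : ℝ} (hε : 0 < ε) :
    ∃ C : ℝ, 0 < C ∧ ∀ H : ℕ, 3 ≤ H → Real.exp ((Real.log H) ^ τ) ≤ C * (H : ℝ) ^ ε := by
  obtain ⟨C, hC⟩ := pow_le_lin h0 hτ hε
  refine ⟨Real.exp C, Real.exp_pos _, fun H hH => ?_⟩
  have hH3 : (3 : ℝ) ≤ H := by exact_mod_cast hH
  have hlog : 0 < Real.log H := Real.log_pos (by linarith)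
  have h1 := hC _ hlog
  rw [Real.rpow_def_of_pos (by linarith : (0 : ℝ) < H), ← Real.exp_add]
  apply Real.exp_le_exp.2
  linarith

end Pool.Agent.Helper203.Win.Fam
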