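import Pool.Agent.Y854.GM.WinV

/-! Balls around the members `v_n α` of a thin dilated sequence in a normed space which contain no element of a thin
set `S_n` depending on `n`: the exceptional vectors `α` have dimension at most `(s + τ) / (1 - θ)`, where `S_n` has
`v_n ^ (s + ε)` elements of size at most `A v_n`, the sequence `v` has exponent of convergence `τ`, and the balls have
radius `v_n ^ θ`. This is the version in several variables of `Pool.Agent.Y854.GM.windowsV`. -/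

set_option autoImplicit false

open Finset Filter Topology MeasureTheory

namespace Pool.Agent.Helper203.Win

open scoped ENNReal NNReal

open Pool.Agent.Y854.GM

variable {E : Type} [NormedAddCommGroup E] [NormedSpace ℝ E] [MeasurableSpace E] [BorelSpace E]

/-- one bounded range of vectors -/
theorem dim_winM {T : Type} (S : ℕ → Set T) (h : ℕ → T → E) {v : ℕ → ℝ} {s τ θ D : ℝ} (hpos : ∀ n, 1 ≤ v n)
    (hτ : 0 ≤ τ) (hv : ExpLe v τ) (hs : 0 ≤ s) (hθ1 : θ < 1) (hD : s + τ < D * (1 - θ)) (K : ℝ) (hK0 : 0 ≤ K) (A : ℕ)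
    (hS : ∀ n : ℕ, {t | t ∈ S n ∧ ‖h n t‖ ≤ ((A : ℝ) + 1) * v n}.Finite ∧
      ({t | t ∈ S n ∧ ‖h n t‖ ≤ ((A : ℝ) + 1) * v n}.ncard : ℝ) ≤ K * (v n) ^ s) :
    dimH {α : E | ‖α‖ ≤ A ∧ ∀ n1 : ℕ, ∃ n : ℕ, n1 ≤ n ∧ ∃ t ∈ S n, ‖h n t - v n • α‖ ≤ (v n) ^ θ} ≤
      ENNReal.ofReal D := by
  have h1θ : 0 < 1 - θ := by linarith
  have hD0 : 0 < D := by
    have h1 : 0 < D * (1 - θ) := lt_of_le_of_lt (by positivity) hD
    exact (pos_iff_pos_of_mul_pos h1).2 h1θ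
  have hDn : ((Real.toNNReal D : ℝ≥0) : ℝ) = D := Real.coe_toNNReal D hD0.le
  have hgoal : ENNReal.ofReal D = ((Real.toNNReal D : ℝ≥0) : ℝ≥0∞) := rfl
  rw [hgoal]
  apply dimH_le_of_hausdorffMeasure_ne_top
  rw [hDn]
  have hvp : ∀ n, 0 < v n := fun n => lt_of_lt_of_le one_pos (hpos n)
  set U : ℕ → Finset T := fun m => (hS m).1.toFinset with hU
  set p : ℝ := D * (1 - θ) - s with hp
  have hp1 : τ < p := by rw [hp]; linarith
  have hp0 : 0 < p := lt_of_le_of_lt hτ hp1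
  have hcard : ∀ m : ℕ, ((U m).card : ℝ) ≤ K * (v m) ^ s := by
    intro m
    have h2 := (hS m).2
    rw [Set.ncard_eq_toFinset_card _ (hS m).1] at h2
    exact h2
  set r0 : ℕ → ℝ := fun n => 2 * (v n) ^ (θ - 1) with hr0
  have hr0p : ∀ n, 0 < r0 n := fun n => mul_pos two_pos (Real.rpow_pos_of_pos (hvp n) _)
  have hsum : Summable (fun m : ℕ => (2 ^ D * K) * (v m) ^ (-p)) := (hv p hp1).mul_left _
  have hlev : ∀ m : ℕ, ((U m).card : ℝ) * (r0 m) ^ D ≤ (2 ^ D * K) * (v m) ^ (-p) := by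
    intro m
    have hm0 := hvp m
    calc ((U m).card : ℝ) * (r0 m) ^ D ≤ (K * (v m) ^ s) * (r0 m) ^ D :=
          mul_le_mul_of_nonneg_right (hcard m) (Real.rpow_nonneg (hr0p m).le _)
      _ = (2 ^ D * K) * ((v m) ^ s * (v m) ^ ((θ - 1) * D)) := by
          rw [hr0, Real.mul_rpow two_pos.le (Real.rpow_nonneg hm0.le _), ← Real.rpow_mul hm0.le]
          ring
      _ = (2 ^ D * K) * (v m) ^ (-p) := by
          rw [← Real.rpow_add hm0]
          congr 2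
          rw [hp]
          ring
  have htv : Tendsto v atTop atTop := tendsto_of_expLe hvp hτ hv
  have hr0t : Tendsto r0 atTop (𝓝 0) := by
    have h1 : Tendsto (fun n => (v n) ^ (-(1 - θ))) atTop (𝓝 0) := (tendsto_rpow_neg_atTop h1θ).comp htv
    have h2 := h1.const_mul 2
    rw [mul_zero] at h2
    refine h2.congr (fun n => ?_)
    rw [hr0]
    simp only
    congr 2
    ring
  have hr : ∀ ε : ℝ≥0∞, 0 < ε → ∃ N : ℕ, ∀ n : ℕ, N ≤ n → ENNReal.ofReal (r0 n) ≤ ε := by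
    intro ε hε
    have h1 := ENNReal.tendsto_ofReal hr0t
    rw [ENNReal.ofReal_zero] at h1
    exact ((h1.eventually (ge_mem_nhds hε))).exists_forall_of_atTop
  set r : ℕ → ℝ≥0∞ := fun n => ⨆ i : ℕ, ENNReal.ofReal (r0 (n + i)) with hrdef
  have hrt : Tendsto r atTop (𝓝 0) := by
    rw [ENNReal.tendsto_atTop_zero]
    intro ε hε
    obtain ⟨N, hN⟩ := hr ε hε
    exact ⟨N, fun n hn => iSup_le fun i => hN _ (by omega)⟩
  set W : (n : ℕ) → (Σ i : ℕ, (U (n + i))) → Set E := fun n q =>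
    {α : E | ‖h (n + q.1) (q.2 : T) - v (n + q.1) • α‖ ≤ (v (n + q.1)) ^ θ} with hW
  have hd : ∀ (n : ℕ) (q : Σ i : ℕ, (U (n + i))), Metric.ediam (W n q) ≤ ENNReal.ofReal (r0 (n + q.1)) := by
    intro n q
    apply Metric.ediam_le_of_forall_dist_le
    intro x hx y hy
    have hm0 := hvp (n + q.1)
    have h1 : ‖h (n + q.1) (q.2 : T) - v (n + q.1) • x‖ ≤ (v (n + q.1)) ^ θ := hx
    have h2 : ‖h (n + q.1) (q.2 : T) - v (n + q.1) • y‖ ≤ (v (n + q.1)) ^ θ := hy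
    have h3 : v (n + q.1) • (x - y) = (h (n + q.1) (q.2 : T) - v (n + q.1) • y) -
        (h (n + q.1) (q.2 : T) - v (n + q.1) • x) := by rw [smul_sub]; abel
    have h4 : v (n + q.1) * ‖x - y‖ ≤ 2 * (v (n + q.1)) ^ θ := by
      have h5 := norm_smul (v (n + q.1)) (x - y)
      rw [Real.norm_of_nonneg hm0.le] at h5
      rw [← h5, h3]
      refine (norm_sub_le _ _).trans ?_
      linarith
    rw [dist_eq_norm, hr0]
    simp only
    rw [Real.rpow_sub_one hm0.ne', ← mul_div_assoc, le_div_iff₀ hm0]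
    linarith
  obtain ⟨n2, hn2⟩ : ∃ n2 : ℕ, ∀ n : ℕ, n2 ≤ n → (v n) ^ θ ≤ v n :=
    ⟨0, fun n _ => by
      calc (v n) ^ θ ≤ (v n) ^ (1 : ℝ) := Real.rpow_le_rpow_of_exponent_le (hpos n) hθ1.le
        _ = v n := Real.rpow_one _⟩
  have key := Measure.hausdorffMeasure_le_liminf_tsum (X := E) (β := ℕ)
    (ι := fun n => Σ i : ℕ, (U (n + i))) D
    {α : E | ‖α‖ ≤ A ∧ ∀ n1 : ℕ, ∃ n : ℕ, n1 ≤ n ∧ ∃ t ∈ S n, ‖h n t - v n • α‖ ≤ (v n) ^ θ}
    (l := atTop) r hrt W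
    (Eventually.of_forall fun n q => (hd n q).trans (le_iSup (fun i : ℕ => ENNReal.ofReal (r0 (n + i))) q.1))
    (Eventually.of_forall fun n α hα => by
      obtain ⟨hαA, hlim⟩ := hα
      obtain ⟨m, hm1, t, ht, hm3⟩ := hlim (max n n2)
      obtain ⟨i, rfl⟩ := Nat.exists_eq_add_of_le ((le_max_left n n2).trans hm1)
      have hmp : 0 < v (n + i) := hvp _
      have hw := hn2 (n + i) ((le_max_right n n2).trans hm1)
      have hmem : t ∈ U (n + i) := by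
        rw [hU, Set.Finite.mem_toFinset]
        refine ⟨ht, ?_⟩
        have h1 : ‖v (n + i) • α‖ ≤ A * v (n + i) := by
          rw [norm_smul, Real.norm_of_nonneg hmp.le, mul_comm]
          exact mul_le_mul_of_nonneg_right hαA hmp.le
        have h2 : ‖h (n + i) t‖ ≤ ‖h (n + i) t - v (n + i) • α‖ + ‖v (n + i) • α‖ := by
          have := norm_add_le (h (n + i) t - v (n + i) • α) (v (n + i) • α)
          rwa [sub_add_cancel] at this
        linarith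
      rw [Set.mem_iUnion]
      exact ⟨⟨i, ⟨_, hmem⟩⟩, hm3⟩)
  refine ne_top_of_le_ne_top ?_ key
  have hnn : ∀ m : ℕ, 0 ≤ (2 ^ D * K) * (v m) ^ (-p) := fun m =>
    mul_nonneg (by positivity) (Real.rpow_nonneg (hvp m).le _)
  have htot : (∑' m : ℕ, ENNReal.ofReal ((2 ^ D * K) * (v m) ^ (-p))) ≠ ⊤ := by
    rw [← ENNReal.ofReal_tsum_of_nonneg hnn hsum]
    exact ENNReal.ofReal_ne_top
  have hbound : ∀ n : ℕ, (∑' q : Σ i : ℕ, (U (n + i)), Metric.ediam (W n q) ^ D) ≤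
      ∑' m : ℕ, ENNReal.ofReal ((2 ^ D * K) * (v m) ^ (-p)) := by
    intro n
    rw [ENNReal.tsum_sigma']
    calc (∑' i : ℕ, ∑' x : (U (n + i)), Metric.ediam (W n ⟨i, x⟩) ^ D)
        ≤ ∑' i : ℕ, ENNReal.ofReal ((2 ^ D * K) * (v (n + i)) ^ (-p)) := by
          apply ENNReal.tsum_le_tsum
          intro i
          have h1 : ∀ x : (U (n + i)), Metric.ediam (W n ⟨i, x⟩) ^ D ≤ ENNReal.ofReal ((r0 (n + i)) ^ D) := by
            intro x
            rw [← ENNReal.ofReal_rpow_of_pos (hr0p _)]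
            exact ENNReal.rpow_le_rpow (hd n ⟨i, x⟩) hD0.le
          refine (ENNReal.tsum_le_tsum h1).trans ?_
          rw [tsum_fintype]
          simp only [Finset.sum_const, Finset.card_univ, Fintype.card_coe, nsmul_eq_mul]
          rw [← ENNReal.ofReal_natCast, ← ENNReal.ofReal_mul (by positivity)]
          apply ENNReal.ofReal_le_ofReal
          exact hlev (n + i)
      _ ≤ ∑' m : ℕ, ENNReal.ofReal ((2 ^ D * K) * (v m) ^ (-p)) :=
          ENNReal.tsum_comp_le_tsum_of_injective (f := fun i : ℕ => n + i)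
            (fun a b h => by simpa using h) (fun m : ℕ => ENNReal.ofReal ((2 ^ D * K) * (v m) ^ (-p)))
  refine ne_top_of_le_ne_top htot ?_
  apply Filter.liminf_le_of_le
  · isBoundedDefault
  · intro b hb
    obtain ⟨n, hn⟩ := hb.exists
    exact hn.trans (hbound n)

/-- **Balls without elements of thin sets.** Let `S_n` have at most `C v_n ^ (s + ε)` elements of size at most `A v_n`,
for each `ε > 0` and each `A`, let the exponent of convergence of the sequence `v ≥ 1` be at most `τ` and `θ < 1`. For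
all vectors `α` outside a set of dimension at most `(s + τ) / (1 - θ)` and all but finitely many `n` no element of `S_n`
lies in the ball with centre `v_n α` and radius `v_n ^ θ`. -/
theorem windowsM {T : Type} (S : ℕ → Set T) (h : ℕ → T → E) {v : ℕ → ℝ} {s τ θ : ℝ} (hpos : ∀ n, 1 ≤ v n)
    (hτ : 0 ≤ τ) (hv : ExpLe v τ) (hs : 0 ≤ s) (hθ1 : θ < 1)
    (hS : ∀ (A : ℕ) (ε : ℝ), 0 < ε → ∃ (C : ℝ) (n₁ : ℕ), ∀ n : ℕ, n₁ ≤ n →
      {t | t ∈ S n ∧ ‖h n t‖ ≤ ((A : ℝ) + 1) * v n}.Finite ∧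
      ({t | t ∈ S n ∧ ‖h n t‖ ≤ ((A : ℝ) + 1) * v n}.ncard : ℝ) ≤ C * (v n) ^ (s + ε)) :
    ∃ X : Set E, dimH X ≤ ENNReal.ofReal ((s + τ) / (1 - θ)) ∧ ∀ α : E, α ∉ X →
      ∃ n0 : ℕ, ∀ n : ℕ, n0 ≤ n → ∀ t ∈ S n, (v n) ^ θ < ‖h n t - v n • α‖ := by
  have h1θ : 0 < 1 - θ := by linarith
  have hvp : ∀ n, 0 < v n := fun n => lt_of_lt_of_le one_pos (hpos n)
  set F : ℕ → Set E := fun A => {α : E | ‖α‖ ≤ A ∧ ∀ n1 : ℕ, ∃ n : ℕ, n1 ≤ n ∧
    ∃ t ∈ S n, ‖h n t - v n • α‖ ≤ (v n) ^ θ} with hF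
  refine ⟨⋃ A, F A, ?_, fun α hαE => ?_⟩
  · rw [dimH_iUnion]
    apply iSup_le
    intro A
    apply ENNReal.le_of_forall_pos_le_add
    intro ε hε _
    have hε' : (0 : ℝ) < ε := by exact_mod_cast hε
    set D : ℝ := (s + τ) / (1 - θ) + ε with hD
    have hD0 : 0 < D := by positivity
    set ε1 : ℝ := ε * (1 - θ) / 2 with hε1
    have hε1p : 0 < ε1 := by positivity
    obtain ⟨C, n₁, hC⟩ := hS A ε1 hε1p
    set S' : ℕ → Set T := fun n => {t | t ∈ S n ∧ n₁ ≤ n} with hS'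
    have hC' : ∀ n : ℕ, {t | t ∈ S' n ∧ ‖h n t‖ ≤ ((A : ℝ) + 1) * v n}.Finite ∧
        ({t | t ∈ S' n ∧ ‖h n t‖ ≤ ((A : ℝ) + 1) * v n}.ncard : ℝ) ≤ |C| * (v n) ^ (s + ε1) := by
      intro n
      rcases le_or_gt n₁ n with hn | hn
      · have h0 : {t | t ∈ S' n ∧ ‖h n t‖ ≤ ((A : ℝ) + 1) * v n} = {t | t ∈ S n ∧ ‖h n t‖ ≤ ((A : ℝ) + 1) * v n} := by
          ext t
          constructor
          · rintro ⟨⟨a, -⟩, b⟩
            exact ⟨a, b⟩
          · rintro ⟨a, b⟩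
            exact ⟨⟨a, hn⟩, b⟩
        rw [h0]
        have h1 := hpos n
        exact ⟨(hC n hn).1, (hC n hn).2.trans (mul_le_mul_of_nonneg_right (le_abs_self C) (by positivity))⟩
      · have h0 : {t | t ∈ S' n ∧ ‖h n t‖ ≤ ((A : ℝ) + 1) * v n} = ∅ := by
          ext t
          constructor
          · rintro ⟨⟨-, a⟩, -⟩
            omega
          · intro hf
            exact absurd hf (Set.notMem_empty t)
        rw [h0]
        have h1 := hpos n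
        refine ⟨Set.finite_empty, ?_⟩
        rw [Set.ncard_empty]
        push_cast
        positivity
    have h1 := dim_winM S' h hpos hτ hv (s := s + ε1) (θ := θ) (by positivity) hθ1
      (D := D) (by
        have h2 : D * (1 - θ) = s + τ + 2 * ε1 := by
          rw [hD, add_mul, div_mul_cancel₀ _ h1θ.ne', hε1]
          ring
        rw [h2]
        linarith) |C| (abs_nonneg C) A hC'
    rw [hD, ENNReal.ofReal_add (by positivity) (by positivity), ENNReal.ofReal_coe_nnreal] at h1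
    refine le_trans (dimH_mono ?_) h1
    rintro α ⟨ha, hc⟩
    refine ⟨ha, fun n1 => ?_⟩
    obtain ⟨n, hn, t, ht, hw⟩ := hc (max n1 n₁)
    exact ⟨n, (le_max_left _ _).trans hn, t, ⟨ht, (le_max_right _ _).trans hn⟩, hw⟩
  · have h1 : α ∉ F ⌈‖α‖⌉₊ := fun h => hαE (Set.mem_iUnion.2 ⟨_, h⟩)
    by_contra hcon
    push Not at hcon
    apply h1
    exact ⟨Nat.le_ceil _, fun n1 => hcon n1⟩

/-- The version with integer points: if a set of integer points has `O (X ^ (s + ε))` elements in the cubes of side `X`,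
then for all `α ∈ ℝ^ι` outside a set of dimension at most `(s + τ) / (1 - θ)` and all large `n` it contains no point whose
coordinates differ from those of `v_n α` by at most `v_n ^ θ`. -/
theorem windowsZ {ι : Type} [Fintype ι] (S : Set (ι → ℤ)) {v : ℕ → ℝ} {s τ θ : ℝ} (hpos : ∀ n, 1 ≤ v n)
    (hτ : 0 ≤ τ) (hv : ExpLe v τ) (hs : 0 ≤ s) (hθ1 : θ < 1)
    (hS : ∀ ε : ℝ, 0 < ε → ∃ C : ℝ, ∀ H : ℕ, 1 ≤ H →
      ({t : ι → ℤ | t ∈ S ∧ ∀ k, |t k| ≤ H}.ncard : ℝ) ≤ C * (H : ℝ) ^ (s + ε)) :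
    ∃ X : Set (ι → ℝ), dimH X ≤ ENNReal.ofReal ((s + τ) / (1 - θ)) ∧ ∀ α : ι → ℝ, α ∉ X →
      ∃ n0 : ℕ, ∀ n : ℕ, n0 ≤ n → ∀ t : ι → ℤ, (∀ k, |(t k : ℝ) - α k * v n| ≤ (v n) ^ θ) → t ∉ S := by
  classical
  obtain ⟨X, hX1, hX2⟩ := windowsM (E := ι → ℝ) (fun _ => S) (fun _ (t : ι → ℤ) => (fun k => (t k : ℝ)))
    (v := v) (s := s) (τ := τ) (θ := θ) hpos hτ hv hs hθ1 (by
      intro A ε hε
      obtain ⟨C, hC⟩ := hS ε hε
      refine ⟨|C| * ((A : ℝ) + 2) ^ (s + ε), 0, fun n _ => ?_⟩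
      have hn := hpos n
      have hA : (0 : ℝ) ≤ A := Nat.cast_nonneg A
      have hfin : {t : ι → ℤ | t ∈ S ∧ ∀ k, |t k| ≤ (⌈((A : ℝ) + 1) * v n⌉₊ : ℤ)}.Finite := by
        refine (Set.Finite.pi fun _ => Set.finite_Icc (-(⌈((A : ℝ) + 1) * v n⌉₊ : ℤ))
          (⌈((A : ℝ) + 1) * v n⌉₊ : ℤ)).subset (fun t ht k _ => ?_)
        exact Set.mem_Icc.2 (abs_le.1 (ht.2 k))
      have hsub : {t : ι → ℤ | t ∈ S ∧ ‖(fun k => (t k : ℝ))‖ ≤ ((A : ℝ) + 1) * v n} ⊆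
          {t : ι → ℤ | t ∈ S ∧ ∀ k, |t k| ≤ (⌈((A : ℝ) + 1) * v n⌉₊ : ℤ)} := by
        rintro t ⟨ht, hn1⟩
        refine ⟨ht, fun k => ?_⟩
        have h1 := (norm_le_pi_norm (fun k => (t k : ℝ)) k).trans hn1
        have h2 : (|t k| : ℝ) ≤ (⌈((A : ℝ) + 1) * v n⌉₊ : ℝ) := by
          rw [Real.norm_eq_abs] at h1
          exact h1.trans (Nat.le_ceil _)
        exact_mod_cast h2
      refine ⟨hfin.subset hsub, ?_⟩
      have h3 : 1 ≤ ⌈((A : ℝ) + 1) * v n⌉₊ := Nat.one_le_ceil_iff.2 (by positivity)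
      have h4 : (⌈((A : ℝ) + 1) * v n⌉₊ : ℝ) ≤ ((A : ℝ) + 2) * v n := by
        have := Nat.ceil_lt_add_one (show 0 ≤ ((A : ℝ) + 1) * v n by positivity)
        nlinarith
      calc (({t : ι → ℤ | t ∈ S ∧ ‖(fun k => (t k : ℝ))‖ ≤ ((A : ℝ) + 1) * v n}.ncard : ℕ) : ℝ)
          ≤ (({t : ι → ℤ | t ∈ S ∧ ∀ k, |t k| ≤ (⌈((A : ℝ) + 1) * v n⌉₊ : ℤ)}.ncard : ℕ) : ℝ) := by
            exact_mod_cast Set.ncard_le_ncard hsub hfin
        _ ≤ C * (⌈((A : ℝ) + 1) * v n⌉₊ : ℝ) ^ (s + ε) := hC _ h3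
        _ ≤ |C| * (⌈((A : ℝ) + 1) * v n⌉₊ : ℝ) ^ (s + ε) :=
            mul_le_mul_of_nonneg_right (le_abs_self C) (by positivity)
        _ ≤ |C| * (((A : ℝ) + 2) * v n) ^ (s + ε) := by
            apply mul_le_mul_of_nonneg_left _ (abs_nonneg C)
            exact Real.rpow_le_rpow (Nat.cast_nonneg _) h4 (by positivity)
        _ = |C| * ((A : ℝ) + 2) ^ (s + ε) * (v n) ^ (s + ε) := by
            rw [Real.mul_rpow (by positivity) (by linarith), ← mul_assoc])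
  refine ⟨X, hX1, fun α hα => ?_⟩
  obtain ⟨n0, hn0⟩ := hX2 α hα
  refine ⟨n0, fun n hn t ht hmem => ?_⟩
  have h1 := hn0 n hn t hmem
  refine absurd ?_ (not_le.2 h1)
  rw [pi_norm_le_iff_of_nonneg (Real.rpow_nonneg (by linarith [hpos n]) _)]
  intro k
  rw [Real.norm_eq_abs]
  have e : (((fun k => (t k : ℝ)) - v n • α : ι → ℝ)) k = (t k : ℝ) - α k * v n := by
    simp only [Pi.sub_apply, Pi.smul_apply, smul_eq_mul]
    ring
  rw [e]
  exact ht k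

/-- The version with integers: if a set of integers has `O (X ^ (s + ε))` elements in `[-X, X]`, then for all real `α`
outside a set of dimension at most `(s + τ) / (1 - θ)` and all large `n` it contains no `t` with `|t - α v_n| ≤ v_n ^ θ`. -/
theorem windowsI (S : Set ℤ) {v : ℕ → ℝ} {s τ θ : ℝ} (hpos : ∀ n, 1 ≤ v n)
    (hτ : 0 ≤ τ) (hv : ExpLe v τ) (hs : 0 ≤ s) (hθ1 : θ < 1)
    (hS : ∀ ε : ℝ, 0 < ε → ∃ C : ℝ, ∀ H : ℕ, 1 ≤ H →
      ({t : ℤ | t ∈ S ∧ |t| ≤ H}.ncard : ℝ) ≤ C * (H : ℝ) ^ (s + ε)) :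
    ∃ X : Set ℝ, dimH X ≤ ENNReal.ofReal ((s + τ) / (1 - θ)) ∧ ∀ α : ℝ, α ∉ X →
      ∃ n0 : ℕ, ∀ n : ℕ, n0 ≤ n → ∀ t : ℤ, |(t : ℝ) - α * v n| ≤ (v n) ^ θ → t ∉ S := by
  obtain ⟨X, hX1, hX2⟩ := windowsM (E := ℝ) (fun _ => S) (fun _ (t : ℤ) => (t : ℝ))
    (v := v) (s := s) (τ := τ) (θ := θ) hpos hτ hv hs hθ1 (by
      intro A ε hε
      obtain ⟨C, hC⟩ := hS ε hε
      refine ⟨|C| * ((A : ℝ) + 2) ^ (s + ε), 0, fun n _ => ?_⟩
      have hn := hpos n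
      have hA : (0 : ℝ) ≤ A := Nat.cast_nonneg A
      have hfin : {t : ℤ | t ∈ S ∧ |t| ≤ (⌈((A : ℝ) + 1) * v n⌉₊ : ℤ)}.Finite :=
        (Set.finite_Icc (-(⌈((A : ℝ) + 1) * v n⌉₊ : ℤ)) (⌈((A : ℝ) + 1) * v n⌉₊ : ℤ)).subset
          (fun t ht => Set.mem_Icc.2 (abs_le.1 ht.2))
      have hsub : {t : ℤ | t ∈ S ∧ ‖(t : ℝ)‖ ≤ ((A : ℝ) + 1) * v n} ⊆
          {t : ℤ | t ∈ S ∧ |t| ≤ (⌈((A : ℝ) + 1) * v n⌉₊ : ℤ)} := by
        rintro t ⟨ht, h1⟩
        refine ⟨ht, ?_⟩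
        have h2 : (|t| : ℝ) ≤ (⌈((A : ℝ) + 1) * v n⌉₊ : ℝ) := by
          rw [Real.norm_eq_abs] at h1
          exact h1.trans (Nat.le_ceil _)
        exact_mod_cast h2
      refine ⟨hfin.subset hsub, ?_⟩
      have h3 : 1 ≤ ⌈((A : ℝ) + 1) * v n⌉₊ := Nat.one_le_ceil_iff.2 (by positivity)
      have h4 : (⌈((A : ℝ) + 1) * v n⌉₊ : ℝ) ≤ ((A : ℝ) + 2) * v n := by
        have := Nat.ceil_lt_add_one (show 0 ≤ ((A : ℝ) + 1) * v n by positivity)
        nlinarith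
      calc (({t : ℤ | t ∈ S ∧ ‖(t : ℝ)‖ ≤ ((A : ℝ) + 1) * v n}.ncard : ℕ) : ℝ)
          ≤ (({t : ℤ | t ∈ S ∧ |t| ≤ (⌈((A : ℝ) + 1) * v n⌉₊ : ℤ)}.ncard : ℕ) : ℝ) := by
            exact_mod_cast Set.ncard_le_ncard hsub hfin
        _ ≤ C * (⌈((A : ℝ) + 1) * v n⌉₊ : ℝ) ^ (s + ε) := hC _ h3
        _ ≤ |C| * (⌈((A : ℝ) + 1) * v n⌉₊ : ℝ) ^ (s + ε) :=
            mul_le_mul_of_nonneg_right (le_abs_self C) (by positivity)
        _ ≤ |C| * (((A : ℝ) + 2) * v n) ^ (s + ε) := by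
            apply mul_le_mul_of_nonneg_left _ (abs_nonneg C)
            exact Real.rpow_le_rpow (Nat.cast_nonneg _) h4 (by positivity)
        _ = |C| * ((A : ℝ) + 2) ^ (s + ε) * (v n) ^ (s + ε) := by
            rw [Real.mul_rpow (by positivity) (by linarith), ← mul_assoc])
  refine ⟨X, hX1, fun α hα => ?_⟩
  obtain ⟨n0, hn0⟩ := hX2 α hα
  refine ⟨n0, fun n hn t ht hmem => ?_⟩
  have h1 := hn0 n hn t hmem
  refine absurd ?_ (not_le.2 h1)
  rw [Real.norm_eq_abs, smul_eq_mul, mul_comm]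
  exact ht

end Pool.Agent.Helper203.Win
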